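import Pool.Agent.Lib.helper3.MM

/-! Critical red against supercritical blue branching random walk on the line. -/

open Filter Topology MeasureTheory ProbabilityTheory Set Pointwise

namespace Pool.Agent.H.MP_1cd8c4_pr

open Pool.Agent.Lib.helper3.MM

noncomputable def u (d : ℕ) : ℕ → ℤ → ℝ
  | 0, j => if 0 ≤ j then 0 else 1
  | t + 1, j => ((u d t (j - 2) + u d t j) / 2) ^ d

variable {d : ℕ}

lemma u_mem (t : ℕ) : ∀ j, 0 ≤ u d t j ∧ u d t j ≤ 1 := by
  induction t with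
  | zero => intro j; simp only [u]; split_ifs <;> norm_num
  | succ t ih =>
    intro j
    have a := ih (j - 2)
    have b := ih j
    exact ⟨pow_nonneg (by linarith) _, pow_le_one₀ (by linarith) (by linarith)⟩

lemma u_neg (t : ℕ) : ∀ j < 0, u d t j = 1 := by
  induction t with
  | zero => intro j h; simp [u, h]
  | succ t ih => intro j h; rw [u, ih j h, ih _ (by omega)]; norm_num

lemma u_anti (t : ℕ) : ∀ j, u d t j ≤ u d t (j - 2) := by
  induction t with
  | zero => intro j; simp only [u]; split_ifs <;> first | omega | norm_num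
  | succ t ih =>
    intro j
    exact pow_le_pow_left₀ (by linarith [u_mem (d := d) t (j - 2), u_mem (d := d) t j])
      (by linarith [ih j, ih (j - 2)]) d

lemma u_mono (t : ℕ) : ∀ j, u d t j ≤ u d (t + 1) j := by
  induction t with
  | zero =>
    intro j
    by_cases h : 0 ≤ j
    · simpa [u, h] using (u_mem (d := d) 1 j).1
    · rw [u_neg _ j (by omega), u_neg _ j (by omega)]
  | succ t ih =>
    intro j
    exact pow_le_pow_left₀ (by linarith [u_mem (d := d) t (j - 2), u_mem (d := d) t j])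
      (by linarith [ih j, ih (j - 2)]) d

lemma u_sq (hd : 2 ≤ d) (t : ℕ) (j : ℤ) : u d (t + 1) j ≤ ((u d t (j - 2) + u d t j) / 2) ^ 2 :=
  pow_le_pow_of_le_one (by linarith [u_mem (d := d) t (j - 2), u_mem (d := d) t j])
    (by linarith [u_mem (d := d) t (j - 2), u_mem (d := d) t j]) hd

lemma u_pow (hd : 2 ≤ d) (t j : ℕ) : u d t (2 * j) ≤ u d t 0 ^ 2 ^ j := by
  induction j with
  | zero => simp
  | succ j ih =>
    rcases t with _ | t
    · simp only [u]
      rw [if_pos (by positivity)]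
      positivity
    · have a := u_anti (d := d) t (2 * (j + 1 : ℕ))
      have b := u_sq hd t (2 * (j + 1 : ℕ))
      have c := u_mem (d := d) t (2 * (j + 1 : ℕ))
      rw [show (2 * (j + 1 : ℕ) : ℤ) - 2 = 2 * j by push_cast; ring] at a b
      have e := u_mono (d := d) t (2 * j)
      rw [pow_succ, pow_mul]
      exact b.trans (pow_le_pow_left₀ (by linarith) (by linarith) 2)

lemma u_zero (hd : 2 ≤ d) (t : ℕ) : u d t 0 ≤ 1 - 1 / (t + 1) := by
  induction t with
  | zero => simp [u]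
  | succ t ih =>
    have b := u_sq hd t 0
    rw [u_neg t (0 - 2) (by norm_num)] at b
    refine b.trans ((pow_le_pow_left₀ (by linarith [u_mem (d := d) t 0])
      (show _ ≤ 1 - 1 / (t + 1 : ℝ) / 2 by linarith) 2).trans ?_)
    push_cast
    have : (0 : ℝ) ≤ t := by positivity
    rw [← sub_nonneg]
    field_simp
    ring_nf
    positivity

lemma u_three (t : ℕ) : u 3 t 0 ≤ 1 / 2 := by
  induction t with
  | zero => simp [u]
  | succ t ih =>
    rw [u, u_neg t (0 - 2) (by norm_num)]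
    exact (pow_le_pow_left₀ (by linarith [u_mem (d := 3) t 0])
      (show (1 + u 3 t 0) / 2 ≤ 3 / 4 by linarith) 3).trans (by norm_num)

lemma u_bd (hd : 2 ≤ d) (t j : ℕ) : u d t (2 * j) ≤ (t + 1) / 2 ^ j := by
  refine (u_pow hd t j).trans ((pow_le_pow_left₀ (u_mem t 0).1 (u_zero hd t) _).trans ?_)
  have p : (0 : ℝ) < t + 1 := by positivity
  set x : ℝ := 1 / (t + 1)
  have x0 : 0 < x := by positivity
  have x1 : x ≤ 1 := by rw [div_le_one p]; linarith
  have a := one_add_mul_le_pow (show -2 ≤ x by linarith) (2 ^ j)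
  have b : ((1 - x) * (1 + x)) ^ 2 ^ j ≤ 1 := pow_le_one₀ (by nlinarith) (by nlinarith)
  have c : 0 ≤ (1 - x) ^ 2 ^ j := pow_nonneg (by linarith) _
  rw [mul_pow] at b
  push_cast at a
  rw [le_div_iff₀ (by positivity), show (t + 1 : ℝ) = 1 / x by simp [x], le_div_iff₀ x0]
  nlinarith

lemma u_two (n : ℕ) : ∀ j : ℤ, j < 2 * n → Tendsto (u 2 · j) atTop (𝓝 1) := by
  induction n with
  | zero => intro j h; simp only [u_neg _ j (by simpa using h)]; exact tendsto_const_nhds
  | succ n ih =>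
    intro j h
    have a := tendsto_atTop_ciSup (monotone_nat_of_le_succ fun t => u_mono (d := 2) t j)
      ⟨1, by rintro - ⟨t, rfl⟩; exact (u_mem t j).2⟩
    have b := tendsto_nhds_unique ((tendsto_add_atTop_iff_nat 1).2 a)
      ((((ih (j - 2) (by push_cast at h; omega)).add a).div_const 2).pow 2)
    rwa [show ⨆ t, u 2 t j = 1 by nlinarith] at a

def pos (X : List (Fin d) → ℤ) : List (Fin d) → ℤ
  | [] => 0
  | c :: v => pos X v + X (c :: v)

noncomputable def W (X : List (Fin d) → ℤ) : ℕ → List (Fin d) → ℤ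
  | 0, _ => 0
  | t + 1, v => ⨅ c, X (c :: v) + W X t (c :: v)

variable {X : List (Fin d) → ℤ}

lemma W_le (t : ℕ) : ∀ v w, w.length = t → pos X v + W X t v ≤ pos X (w ++ v) := by
  induction t with
  | zero => intro v w h; simp [List.length_eq_zero_iff.1 h, W]
  | succ t ih =>
    intro v w h
    rcases List.eq_nil_or_concat w with rfl | ⟨l, c, rfl⟩
    · simp at h
    · have a := ih (c :: v) l (by simpa using h)
      have b : W X (t + 1) v ≤ _ := ciInf_le (Finite.bddBelow_range _) c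
      rw [pos] at a
      simpa using by linarith

lemma W_ex [NeZero d] (t : ℕ) : ∀ v, ∃ w, w.length = t ∧ pos X (w ++ v) = pos X v + W X t v := by
  induction t with
  | zero => intro v; exact ⟨[], rfl, by simp [W]⟩
  | succ t ih =>
    intro v
    obtain ⟨c, hc⟩ := exists_eq_ciInf_of_finite (f := fun c => X (c :: v) + W X t (c :: v))
    obtain ⟨w, l, h⟩ := ih (c :: v)
    exact ⟨w ++ [c], by simp [l], by rw [W, ← hc]; simpa [pos, add_assoc] using h⟩

lemma pos_neg (w : List (Fin d)) : pos (fun v => -X v) w = -pos X w := by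
  induction w with
  | nil => rfl
  | cons c v ih => simp only [pos, ih]; ring

lemma pos_abs (hX : ∀ v, X v = 1 ∨ X v = -1) (w : List (Fin d)) :
    -(w.length : ℤ) ≤ pos X w ∧ pos X w ≤ w.length := by
  induction w with
  | nil => simp [pos]
  | cons c v ih => have := hX (c :: v); simp only [pos, List.length_cons]; omega

lemma ivt (hX : ∀ v, X v = 1 ∨ X v = -1) {x : ℤ} (hx : x ≤ 0) (w : List (Fin d)) (h : pos X w ≤ x) :
    ∃ v, v.length ≤ w.length ∧ pos X v = x := by
  induction w with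
  | nil => exact ⟨[], le_rfl, by simp only [pos] at *; omega⟩
  | cons c v ih =>
    by_cases e : pos X (c :: v) = x
    · exact ⟨_, le_rfl, e⟩
    · obtain ⟨y, l, p⟩ := ih (by have := hX (c :: v); simp only [pos] at *; omega)
      exact ⟨y, by simp; omega, p⟩

lemma reach [NeZero d] (hX : ∀ v, X v = 1 ∨ X v = -1) {x : ℤ} {t : ℕ} (hx : x ≤ 0) (h : W X t [] ≤ x) :
    ∃ v, v.length ≤ t ∧ pos X v = x := by
  obtain ⟨w, rfl, p⟩ := W_ex (X := X) t []
  exact ivt hX hx w (by simpa [pos] using p.trans_le (by simpa [pos]))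

lemma W_mono [NeZero d] (hX : ∀ v, X v = 1 ∨ X v = -1) : Monotone fun t : ℕ => W X t [] + t := by
  refine monotone_nat_of_le_succ fun t => ?_
  obtain ⟨_ | ⟨c, w⟩, l, p⟩ := W_ex (X := X) (t + 1) []
  · simp at l
  · have a := W_le (X := X) t [] w (by simpa using l)
    have := hX (c :: w)
    simp only [List.append_nil, pos] at a p
    push_cast
    omega

variable {Ω : Type*} [mΩ : MeasurableSpace Ω] {P : Measure Ω} [IsProbabilityMeasure P]
  {Z : List (Fin d) → Ω → ℤ}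

def S (v : List (Fin d)) : Set (List (Fin d)) := {w | ∃ c l, l ++ c :: v = w}

lemma ok : Ok (d := d) id S where
  mem c v := ⟨c, [], rfl⟩
  sub c v := fun _ ⟨e, l, h⟩ => ⟨c, l ++ [e], by simpa using h⟩
  not v := fun ⟨c, l, h⟩ => by
    have := congrArg List.length h
    simp at this; omega
  dis v c c' h := disjoint_left.2 fun w p q => by
    have a : ∀ c, w ∈ insert (id (c :: v)) {w | ∃ e l, l ++ e :: c :: v = w} → c :: v <:+ w := by
      rintro c (rfl | ⟨e, l, rfl⟩)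
      exacts [List.suffix_refl _, ⟨l ++ [e], by simp⟩]
    exact h (by simpa using (List.suffix_of_suffix_length_le (a _ p) (a _ q) (by simp)).eq_of_length (by simp))

omit mΩ in
lemma mW (t : ℕ) : ∀ v, Measurable[M Z (S v)] fun ω => W (Z · ω) t v := by
  induction t with
  | zero => exact fun _ => measurable_const
  | succ t ih =>
    intro v
    let _ := M Z (S v)
    exact .iInf fun c => (mZ (ok.mem c v)).add ((ih _).mono (M_mono (ok.sub c v)) le_rfl)

structure R (P : Measure Ω) (Z : List (Fin d) → Ω → ℤ) : Prop where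
  m : ∀ i, Measurable (Z i)
  i : iIndepFun Z P
  p : ∀ v, P.real {ω | Z v ω = 1} = 1 / 2
  n : ∀ v, P.real {ω | Z v ω = -1} = 1 / 2

omit [IsProbabilityMeasure P] in
lemma R.neg (h : R P Z) : R P fun v ω => -Z v ω :=
  ⟨fun i => (h.m i).neg, h.i.comp (fun _ x => -x) fun _ => measurable_neg,
    fun v => by simpa [neg_eq_iff_eq_neg] using h.n v, fun v => by simpa using h.p v⟩

lemma R.pm (h : R P Z) : ∀ᵐ ω ∂P, ∀ v, Z v ω = 1 ∨ Z v ω = -1 := ae_all_iff.2 fun v => by
  have a : ∀ s : ℤ, MeasurableSet {ω | Z v ω = s} := fun s => h.m v (measurableSet_singleton s)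
  have : P.real ({ω | Z v ω = 1} ∪ {ω | Z v ω = -1}) = 1 := by
    rw [measureReal_union (disjoint_left.2 fun ω p q => by simp only [mem_ofPred_eq] at p q; omega)
      (a _), h.p, h.n]; norm_num
  exact (mem_ae_iff_prob_eq_one ((a _).union (a _))).2 ((ENNReal.toReal_eq_one_iff _).1 this)

omit [IsProbabilityMeasure P] in
lemma R.ms (h : R P Z) (t : ℕ) (v : List (Fin d)) (x : ℤ) : MeasurableSet {ω | W (Z · ω) t v ≤ x} :=
  M_le h.m _ _ (mW t v (measurableSet_Iic (a := x)))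

lemma R.law [NeZero d] (h : R P Z) (t : ℕ) :
    ∀ v (j : ℤ), P.real {ω | W (Z · ω) t v ≤ j - t}ᶜ = u d t j := by
  induction t with
  | zero => intro v j; by_cases e : 0 ≤ j <;> simp [W, u, e]
  | succ t ih =>
    intro v j
    have y : ∀ v x, MeasurableSet[M Z (insert v (S v))] {ω | Z v ω + W (Z · ω) t v ≤ x} := fun v x =>
      (mZ (mem_insert _ _)).add ((mW t v).mono (M_mono (subset_insert _ _)) le_rfl)
        (measurableSet_Iic (a := x))
    have c : ∀ v (j : ℤ), P.real {ω | W (Z · ω) t v ≤ j - t} = 1 - u d t j := fun v j => by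
      rw [← ih v j, probReal_compl_eq_one_sub (R.ms h t v _), sub_sub_cancel]
    rw [u, ← indn h.m h.i (ok.dis v) (fun c => (y (c :: v) (j - (t + 1 : ℕ))).compl) fun e => by
      rw [probReal_compl_eq_one_sub (M_le h.m _ _ (y _ _)), edge h.m h.i (i := e :: v) (ok.not _) (h.p _) (h.n _)
        (mW _ _), show j - (t + 1 : ℕ) - 1 = j - 2 - t by push_cast; ring,
        show j - (t + 1 : ℕ) + 1 = j - t by push_cast; ring, c, c]
      ring]
    congr 1
    ext ω
    simp only [W, mem_compl_iff, not_le, mem_iInter, mem_ofPred_eq, Int.lt_iff_add_one_le,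
      le_ciInf_iff (Finite.bddBelow_range _)]

lemma null {A : Set Ω} {f : ℕ → ℝ} (hf : Tendsto f atTop (𝓝 0)) (h : ∀ n, P.real A ≤ f n) :
    ∀ᵐ ω ∂P, ω ∉ A :=
  measure_eq_zero_iff_ae_notMem.1
    ((measureReal_eq_zero_iff).1 (le_antisymm (ge_of_tendsto' hf h) measureReal_nonneg))

lemma R.red {Z : List (Fin 2) → Ω → ℤ} (h : R P Z) :
    ∀ᵐ ω ∂P, ∀ j : ℤ, ∃ T : ℕ, ∀ t ≥ T, j < W (Z · ω) t [] + t := by
  filter_upwards [h.pm, ae_all_iff.2 fun j : ℤ => null (P := P) (A := ⋂ t, {ω | W (Z · ω) t [] ≤ j - t})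
    (f := fun t => 1 - u 2 t j) (by simpa using (u_two (j.natAbs + 1) j (by omega)).const_sub 1)
    fun t => (measureReal_mono (iInter_subset _ t)).trans (by
      rw [← h.law t [] j, probReal_compl_eq_one_sub (h.ms ..), sub_sub_cancel])] with ω a b j
  obtain ⟨T, e⟩ : ∃ T : ℕ, j - T < W (Z · ω) T [] := by simpa using b j
  exact ⟨T, fun t l => by have := W_mono a l; simp only at this; omega⟩

lemma R.blue {Z : List (Fin 3) → Ω → ℤ} (h : R P Z) :
    ∀ᵐ ω ∂P, ∃ J : ℕ, ∀ t : ℕ, W (Z · ω) t [] + t ≤ J := by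
  have k : ∀ j : ℕ, P.real (⋃ t : ℕ, {ω | W (Z · ω) t [] ≤ 2 * j - t}ᶜ) ≤ (1 / 2) ^ j := fun j => by
    let B : ℕ → Set Ω := fun t => {ω | W (Z · ω) t [] ≤ 2 * j - t}ᶜ ∩ {ω | ∀ v, Z v ω = 1 ∨ Z v ω = -1}
    have mo : Monotone B := fun s t l ω ⟨p, q⟩ => ⟨fun r => p (by
      have := W_mono (X := (Z · ω)) q l
      simp only [mem_ofPred_eq] at *; omega), q⟩
    rw [measureReal_congr (t := ⋃ t, B t) (h.pm.mono fun ω q => propext (by
      show ω ∈ ⋃ _, _ ↔ ω ∈ ⋃ _, _
      simp [B, q]))]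
    refine le_of_tendsto' ((ENNReal.tendsto_toReal (measure_ne_top _ _)).comp
      (tendsto_measure_iUnion_atTop mo)) fun t => ?_
    refine (measureReal_mono inter_subset_left).trans ((h.law t [] _).trans_le ((u_pow (by norm_num) t j).trans
      ((pow_le_pow_left₀ (u_mem t 0).1 (u_three t) _).trans ?_)))
    exact pow_le_pow_of_le_one (by norm_num) (by norm_num) Nat.lt_two_pow_self.le
  filter_upwards [null (P := P) (A := ⋂ j : ℕ, ⋃ t : ℕ, {ω | W (Z · ω) t [] ≤ 2 * j - t}ᶜ)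
    (tendsto_pow_atTop_nhds_zero_of_lt_one (r := 1 / 2) (by norm_num) (by norm_num))
    fun j => (measureReal_mono (iInter_subset _ j)).trans (k j)] with ω a
  obtain ⟨j, e⟩ : ∃ j : ℕ, ∀ t : ℕ, W (Z · ω) t [] ≤ 2 * j - t := by simpa using a
  exact ⟨2 * j, fun t => by have := e t; push_cast; omega⟩

lemma R.speed [NeZero d] (hd : 2 ≤ d) (h : R P Z) :
    ∀ᵐ ω ∂P, ∀ K : ℕ, ∀ᶠ t : ℕ in atTop, W (Z · ω) t [] ≤ 2 * (t / (K + 1) : ℕ) - t := by
  refine ae_all_iff.2 fun K => ?_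
  have p : (0 : ℝ) < K + 1 := by positivity
  set r : ℝ := 1 - 1 / (K + 1) / 2
  have x1 : 1 / (K + 1 : ℝ) ≤ 1 := by rw [div_le_one p]; linarith [Nat.cast_nonneg (α := ℝ) K]
  have x0 : 0 < 1 / (K + 1 : ℝ) := by positivity
  have r0 : 0 ≤ r := by simp only [r]; linarith
  have r1 : r < 1 := by simp only [r]; linarith
  have rK : 1 / 2 ≤ r ^ (K + 1) := by
    refine le_trans (le_of_eq ?_) (one_add_mul_le_pow (a := -(1 / (K + 1 : ℝ) / 2)) (by linarith) (K + 1))
    push_cast; field_simp; norm_num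
  have s : Summable fun t : ℕ => (t ^ 1 * r ^ t + r ^ t) * 2 :=
    ((summable_pow_mul_geometric_of_norm_lt_one 1 (by rwa [Real.norm_of_nonneg r0])).add
      (summable_geometric_of_lt_one r0 r1)).mul_right 2
  have b : ∀ t : ℕ, P.real {ω | W (Z · ω) t [] ≤ 2 * (t / (K + 1) : ℕ) - t}ᶜ ≤
      (t ^ 1 * r ^ t + r ^ t) * 2 := fun t => by
    refine (h.law t [] _).trans_le ((u_bd hd t _).trans ?_)
    have a : (1 / 2) ^ (t / (K + 1) + 1) ≤ r ^ t :=
      (pow_le_pow_left₀ (by norm_num) rK _).trans (by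
        rw [← pow_mul]
        exact pow_le_pow_of_le_one r0 r1.le (Nat.lt_mul_div_succ t K.succ_pos).le)
    rw [pow_succ, one_div_pow] at a
    rw [div_eq_mul_one_div]
    have : (0 : ℝ) ≤ t := by positivity
    nlinarith
  filter_upwards [ae_eventually_notMem (μ := P)
    (s := fun t : ℕ => {ω | W (Z · ω) t [] ≤ 2 * (t / (K + 1) : ℕ) - t}ᶜ) (ne_top_of_le_ne_top
      s.tsum_ofReal_ne_top (ENNReal.tsum_le_tsum fun t => by
        rw [← ofReal_measureReal]; exact ENNReal.ofReal_le_ofReal (b t)))] with ω a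
  simpa using a

def Dbar (X : List (Fin d) → ℤ) (n : ℕ) : Set ℝ :=
  ⋃ x ∈ {x : ℤ | ∃ w, w.length ≤ n ∧ pos X w = x}, Ioc (x - 1 / 2 : ℝ) (x + 1 / 2)

def Shape (X : List (Fin d) → ℤ) (A : Set ℝ) : Prop :=
  ∀ ε ∈ Ioo (0 : ℝ) 1, ∀ᶠ n : ℕ in atTop,
    (1 - ε) • A ⊆ (n : ℝ)⁻¹ • Dbar X n ∧ (n : ℝ)⁻¹ • Dbar X n ⊆ (1 + ε) • A

lemma reach' [NeZero d] (hX : ∀ v, X v = 1 ∨ X v = -1) {x : ℤ} {t : ℕ} (hx : 0 ≤ x)
    (h : W (fun v => -X v) t [] ≤ -x) : ∃ v, v.length ≤ t ∧ pos X v = x := by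
  obtain ⟨v, l, p⟩ := reach (X := fun v => -X v) (fun v => by have := hX v; omega) (by omega) h
  exact ⟨v, l, by rw [pos_neg] at p; omega⟩

lemma R.shape [NeZero d] (hd : 2 ≤ d) (h : R P Z) : ∀ᵐ ω ∂P, Shape (Z · ω) (Icc (-1) 1) := by
  filter_upwards [h.pm, h.speed hd, h.neg.speed hd] with ω a b c ε ⟨e0, e1⟩
  obtain ⟨K, hK⟩ := exists_nat_one_div_lt (show 0 < ε / 4 by linarith)
  filter_upwards [b K, c K, tendsto_natCast_atTop_atTop.eventually_ge_atTop (1 / ε : ℝ),
    eventually_gt_atTop 0] with n b c l n0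
  have n1 : (0 : ℝ) < n := by positivity
  rw [div_le_iff₀ e0] at l
  have q : (2 * (n / (K + 1) : ℕ) : ℝ) ≤ n * ε / 2 := by
    have := Nat.cast_div_le (α := ℝ) (m := n) (n := K + 1)
    push_cast at this
    rw [div_eq_mul_one_div] at this
    nlinarith
  generalize n / (K + 1) = m at b c q
  constructor
  · rintro - ⟨y, ⟨y0, y1⟩, rfl⟩
    set z := n * ((1 - ε) * y)
    have z0 : -(n * (1 - ε)) ≤ z := by simp only [z]; nlinarith [mul_pos n1 (sub_pos.2 e1)]
    have z1 : z ≤ n * (1 - ε) := by simp only [z]; nlinarith [mul_pos n1 (sub_pos.2 e1)]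
    have u0 := Int.le_ceil (z - 1 / 2)
    have u1 := Int.ceil_lt_add_one (z - 1 / 2)
    refine ⟨z, mem_iUnion₂.2 ⟨⌈z - 1 / 2⌉, ?_, by linarith, by linarith⟩, by simp [z, n1.ne']⟩
    rcases le_total ⌈z - 1 / 2⌉ 0 with s | s
    · exact reach a s (b.trans (by rw [← Int.cast_le (R := ℝ)]; push_cast; linarith))
    · exact reach' a s (c.trans (by rw [← Int.cast_le (R := ℝ)]; push_cast; linarith))
  · rintro - ⟨z, hz, rfl⟩
    obtain ⟨-, ⟨w, l, rfl⟩, z0, z1⟩ := mem_iUnion₂.1 hz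
    have p := pos_abs a w
    have p0 : -(n : ℝ) ≤ pos (Z · ω) w := by exact_mod_cast (by omega)
    have p1 : (pos (Z · ω) w : ℝ) ≤ n := by exact_mod_cast (by omega)
    have t : 0 < n * (1 + ε) := by positivity
    refine ⟨z / (n * (1 + ε)), ⟨?_, ?_⟩, by simp only [smul_eq_mul]; field_simp⟩
    · rw [le_div_iff₀ t]; linarith
    · rw [div_le_one t]; linarith

theorem main {Z : List (Fin 2) ⊕ List (Fin 3) → Ω → ℤ} (hm : ∀ i, Measurable (Z i))
    (hi : iIndepFun Z P) (h1 : ∀ i, P.real {ω | Z i ω = 1} = 1 / 2)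
    (h2 : ∀ i, P.real {ω | Z i ω = -1} = 1 / 2) :
    ∀ᵐ ω ∂P, Shape (fun w => Z (.inl w) ω) (Icc (-1) 1) ∧ Shape (fun w => Z (.inr w) ω) (Icc (-1) 1) ∧
      {x : ℤ | ∃ w, pos (fun w => Z (.inl w) ω) w = x ∧
        ∀ v, 1 + pos (fun w => Z (.inr w) ω) v = x → w.length ≤ v.length}.Finite := by
  have r : R P fun w => Z (.inl w) := ⟨fun _ => hm _, hi.precomp Sum.inl_injective, fun _ => h1 _, fun _ => h2 _⟩
  have b : R P fun w => Z (.inr w) := ⟨fun _ => hm _, hi.precomp Sum.inr_injective, fun _ => h1 _, fun _ => h2 _⟩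
  filter_upwards [r.shape le_rfl, b.shape (by norm_num), r.pm, b.pm, r.red, r.neg.red, b.blue, b.neg.blue]
    with ω s1 s2 p1 p2 a1 a2 ⟨J1, b1⟩ ⟨J2, b2⟩
  refine ⟨s1, s2, ?_⟩
  obtain ⟨T1, a1⟩ := a1 (J1 + 1)
  obtain ⟨T2, a2⟩ := a2 J2
  refine (finite_Icc (-(T1 + T2 : ℤ)) (T1 + T2)).subset ?_
  rintro x ⟨w, e, hw⟩
  have k := pos_abs p1 w
  have : w.length < T1 ∨ w.length < T2 := by
    by_contra! o
    have c1 := W_le (X := fun w => Z (.inl w) ω) _ [] w rfl
    have c2 := W_le (X := fun w => -Z (.inl w) ω) _ [] w rfl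
    have := a1 _ o.1
    have := a2 _ o.2
    simp only [List.append_nil, pos_neg, pos, e] at c1 c2
    rcases le_total x 1 with s | s
    · obtain ⟨v, l, p⟩ := reach p2 (x := x - 1) (t := (1 - x).toNat + J1) (by omega)
        (by have := b1 ((1 - x).toNat + J1); omega)
      have := hw v (by omega)
      omega
    · obtain ⟨v, l, p⟩ := reach' p2 (x := x - 1) (t := (x - 1).toNat + J2) (by omega)
        (by have := b2 ((x - 1).toNat + J2); omega)
      have := hw v (by omega)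
      omega
  constructor <;> omega

end Pool.Agent.H.MP_1cd8c4_pr
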